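import Pool.Agent.BEH.Stmts
import Pool.Agent.Helper70_BE01.All

/-!
# Squad BEH, row REP: bounded representatives of the eigenfunctions
-/

set_option autoImplicit false

namespace Pool.Agent.BEH.H86

open Set Filter Topology MeasureTheory
open scoped InnerProductSpace ENNReal
open Pool.Agent.BE01 Pool.Agent.BEL Pool.Agent.BEH

noncomputable section

variable {d : ℕ} {Ω : Set (En d)} {ι : VV Ω →L[ℝ] Lp ℝ 2 (mu Ω)}
  {b : HilbertBasis ℕ ℝ (Lp ℝ 2 (mu Ω))} {e : HilbertBasis ℕ ℝ (VV Ω)} {om : ℕ → ℝ}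

/-- the image of `e k` -/
theorem iota_e (h : Spec Ω ι b e om) (k : ℕ) : ι (om k • e k) = b k := by
  apply b.repr.injective
  ext j
  rw [b.repr_apply_apply, b.repr_apply_apply, h.rel j]
  have hs : ⟪e j, om k • e k⟫_ℝ = om k * ⟪e j, e k⟫_ℝ := inner_smul_right (𝕜 := ℝ) (e j) (e k) (om k)
  rw [hs]
  by_cases hj : j = k
  · subst hj
    rw [real_inner_self_eq_norm_sq, real_inner_self_eq_norm_sq, e.orthonormal.1 j,
      b.orthonormal.1 j]
    have := (h.pos j).ne'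
    field_simp
  · rw [e.orthonormal.2 hj, b.orthonormal.2 hj, mul_zero, mul_zero]

theorem grad_mem {ψ : En d → ℝ} (h : Tst Ω ψ) :
    (Pool.Agent.Helper70BE01Fnl.grad_memLp h).toLp (gradient ψ) ∈ VV Ω := by
  refine Submodule.le_topologicalClosure _ (Submodule.subset_span ⟨ψ, h, ?_⟩)
  exact (Pool.Agent.Helper70BE01Fnl.grad_memLp h).coeFn_toLp

/-- the functions of the basis are eigenfunctions -/
theorem is_eig (hO : Ok Ω ι b e om) (k : ℕ) : IsEig Ω (om k ^ 2) (b k) := by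
  refine ⟨((om k • e k : VV Ω) : Lp (En d) 2 (mu Ω)), ?_, ?_⟩
  · rw [hO.grf]
    exact ⟨(om k • e k : VV Ω).2, (iota_e hO.spec k).symm⟩
  · intro ψ hψ
    set gL := (Pool.Agent.Helper70BE01Fnl.grad_memLp hψ).toLp (gradient ψ) with hgL
    have hg : gL =ᵐ[mu Ω] gradient ψ :=
      (Pool.Agent.Helper70BE01Fnl.grad_memLp hψ).coeFn_toLp
    let G' : VV Ω := ⟨gL, grad_mem hψ⟩
    have hi : ι G' =ᵐ[mu Ω] ψ := hO.emb ψ hψ G' hg
    have e1 : ∫ x, ⟪((om k • e k : VV Ω) : Lp (En d) 2 (mu Ω)) x, gradient ψ x⟫_ℝ ∂(mu Ω) =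
        ⟪(om k • e k : VV Ω), G'⟫_ℝ := by
      rw [Submodule.coe_inner, L2.inner_def]
      refine integral_congr_ae ?_
      filter_upwards [hg] with x hx
      show _ = ⟪_, gL x⟫_ℝ
      rw [hx]
    have e2 : ∫ x, (b k : Lp ℝ 2 (mu Ω)) x * ψ x ∂(mu Ω) = ⟪b k, ι G'⟫_ℝ := by
      rw [L2.inner_def]
      refine integral_congr_ae ?_
      filter_upwards [hi] with x hx
      rw [hx]
      simp only [RCLike.inner_apply, conj_trivial]
      ring
    have hs : ⟪om k • e k, G'⟫_ℝ = om k * ⟪e k, G'⟫_ℝ :=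
      real_inner_smul_left (e k) G' (om k)
    rw [e1, e2, hO.spec.rel k, hs]
    have := (hO.spec.pos k).ne'
    field_simp

/-- row REP -/
theorem rep : RepStmt := by
  intro d Ω ι b e om hd hO N
  have hbd : ∀ k : ℕ, ∃ C : ℝ, ∀ᵐ x ∂(mu Ω), |(b k : Lp ℝ 2 (mu Ω)) x| ≤ C := by
    intro k
    have h1 : MemLp (b k : Lp ℝ 2 (mu Ω)) ∞ (mu Ω) :=
      Pool.Agent.Helper70BE01All.eig_bdd d Ω hd hO.dom _ _ (is_eig hO k)
    refine ⟨(eLpNorm (b k : Lp ℝ 2 (mu Ω)) ∞ (mu Ω)).toReal, ?_⟩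
    have h2 : ∀ᵐ x ∂(mu Ω), ‖(b k : Lp ℝ 2 (mu Ω)) x‖ₑ ≤
        eLpNorm (b k : Lp ℝ 2 (mu Ω)) ∞ (mu Ω) := by
      rw [eLpNorm_exponent_top]
      exact ae_le_eLpNormEssSup
    filter_upwards [h2] with x hx
    have h3 := ENNReal.toReal_mono h1.2.ne hx
    rw [toReal_enorm, Real.norm_eq_abs] at h3
    exact h3
  choose C hC using hbd
  let B : ℝ := 1 + ∑ i : Fin N, |C i|
  have hB : 0 < B := by
    have : 0 ≤ ∑ i : Fin N, |C i| := Finset.sum_nonneg fun i _ => abs_nonneg _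
    show 0 < 1 + _
    linarith
  have hCB : ∀ i : Fin N, C i ≤ B := by
    intro i
    have h1 : |C i| ≤ ∑ i : Fin N, |C i| :=
      Finset.single_le_sum (f := fun i : Fin N => |C i|) (fun i _ => abs_nonneg _)
        (Finset.mem_univ i)
    have h2 := le_abs_self (C i)
    show C i ≤ 1 + _
    linarith
  refine ⟨B, fun i => Ω.indicator fun x => max (-B) (min B ((b i : Lp ℝ 2 (mu Ω)) x)), hB,
    fun i => ⟨?_, ?_⟩, fun i => ?_, fun i x hx => Set.indicator_of_notMem hx _⟩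
  · exact (measurable_const.max (measurable_const.min
      (Lp.stronglyMeasurable (b i : Lp ℝ 2 (mu Ω))).measurable)).indicator hO.dom.1.measurableSet
  · intro x
    show |Ω.indicator (fun x => max (-B) (min B ((b i : Lp ℝ 2 (mu Ω)) x))) x| ≤ B
    by_cases hx : x ∈ Ω
    · rw [Set.indicator_of_mem hx, abs_le]
      exact ⟨le_max_left _ _, max_le (by linarith) (min_le_left _ _)⟩
    · rw [Set.indicator_of_notMem hx, abs_zero]
      exact hB.le
  · have hmem : ∀ᵐ x ∂(mu Ω), x ∈ Ω := by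
      unfold mu
      exact ae_restrict_mem hO.dom.1.measurableSet
    filter_upwards [hmem, hC i] with x hx h1
    show Ω.indicator (fun x => max (-B) (min B ((b i : Lp ℝ 2 (mu Ω)) x))) x = _
    rw [Set.indicator_of_mem hx]
    obtain ⟨h2, h3⟩ := abs_le.1 (h1.trans (hCB i))
    rw [min_eq_right h3, max_eq_right h2]

end

end Pool.Agent.BEH.H86
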